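import Pool.Agent.H945Z.OC.Main

/-- Every graph on n vertices has a path odd-cover with at most floor(n/2) + 18 paths. -/
theorem Pool.Agent.Results.MP_6b7c5d_co.AddConst.result :
    ∀ (n : ℕ) (G : SimpleGraph (Fin n)),
      ∃ (k : ℕ) (u v : Fin k → Fin n)
        (P : ∀ i : Fin k, (⊤ : SimpleGraph (Fin n)).Walk (u i) (v i)),
        k ≤ n / 2 + 18 ∧
        (∀ i : Fin k, (P i).IsPath) ∧
        ∀ a b : Fin n, a ≠ b →
          (G.Adj a b ↔
            Odd ((Finset.univ.filter (fun i : Fin k => s(a, b) ∈ (P i).edges)).card)) :=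
  Pool.Agent.H945Z.OC.main
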